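import Pool.Agent.H238.PH.Spec

set_option autoImplicit false

namespace Pool.Agent.H124.PH

open Pool.Agent.H238.PH MeasureTheory Set Filter Topology
open scoped ContDiff RealInnerProductSpace

lemma hasDerivAt_ec (t : ℝ) : HasDerivAt ec (et t) t := by
  have h : HasDerivAt (fun s : ℝ => (WithLp.toLp 2 (![Real.cos s, Real.sin s]) : RE 2))
      (WithLp.toLp 2 (![-Real.sin t, Real.cos t])) t := by
    have h0 : HasDerivAt (fun s : ℝ => (![Real.cos s, Real.sin s] : Fin 2 → ℝ))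
        (![-Real.sin t, Real.cos t]) t := by
      rw [hasDerivAt_pi]
      intro i
      fin_cases i
      · simpa using Real.hasDerivAt_cos t
      · simpa using Real.hasDerivAt_sin t
    exact (PiLp.continuousLinearEquiv 2 ℝ (fun _ : Fin 2 => ℝ)).symm.hasFDerivAt.comp_hasDerivAt t
      h0
  exact h

lemma ec_eq (t : ℝ) : ec t = Real.cos t • EuclideanSpace.single (0 : Fin 2) (1 : ℝ) +
    Real.sin t • EuclideanSpace.single (1 : Fin 2) (1 : ℝ) := by
  ext i; fin_cases i <;> simp [ec]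

lemma et_eq (t : ℝ) : et t = (-Real.sin t) • EuclideanSpace.single (0 : Fin 2) (1 : ℝ) +
    Real.cos t • EuclideanSpace.single (1 : Fin 2) (1 : ℝ) := by
  ext i; fin_cases i <;> simp [et]

lemma norm_grad_sq {n : ℕ} (h : RE 2 → RE n) (x : RE 2) :
    ‖grad h x‖ ^ 2 = ‖fderiv ℝ h x (EuclideanSpace.single (0 : Fin 2) (1 : ℝ))‖ ^ 2 +
      ‖fderiv ℝ h x (EuclideanSpace.single (1 : Fin 2) (1 : ℝ))‖ ^ 2 := by
  rw [EuclideanSpace.norm_sq_eq, EuclideanSpace.norm_sq_eq, EuclideanSpace.norm_sq_eq,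
    Fintype.sum_prod_type, ← Finset.sum_add_distrib]
  refine Finset.sum_congr rfl fun i _ => ?_
  simp [grad, Fin.sum_univ_two]

lemma norm_rot {E : Type*} [NormedAddCommGroup E] [InnerProductSpace ℝ E] (u v : E) (c s : ℝ)
    (hcs : c ^ 2 + s ^ 2 = 1) :
    ‖c • u + s • v‖ ^ 2 + ‖(-s) • u + c • v‖ ^ 2 = ‖u‖ ^ 2 + ‖v‖ ^ 2 := by
  rw [@norm_add_sq_real, @norm_add_sq_real]
  simp only [norm_smul, inner_smul_left, inner_smul_right, mul_pow, Real.norm_eq_abs, sq_abs,
    conj_trivial]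
  have : s ^ 2 = 1 - c ^ 2 := by linarith
  ring_nf
  rw [this]
  ring

theorem t_B : S_B := by
  intro n β h hc hh
  have hd : Differentiable ℝ h := hc.differentiable (by norm_num)
  have h3 : ∀ x t, ‖grad h x‖ ^ 2 = ‖fderiv ℝ h x (ec t)‖ ^ 2 + ‖fderiv ℝ h x (et t)‖ ^ 2 := by
    intro x t
    rw [norm_grad_sq, ec_eq, et_eq, map_add, map_add, map_smul, map_smul, map_smul, map_smul]
    exact (norm_rot _ _ _ _ (Real.cos_sq_add_sin_sq t)).symm
  have h2 : ∀ t, fderiv ℝ h (ec t) (ec t) = β • h (ec t) := by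
    intro t
    have hl : HasDerivAt (fun s : ℝ => s • ec t) (ec t) 1 := by
      simpa using (hasDerivAt_id (1 : ℝ)).smul_const (ec t)
    have a1 : HasDerivAt (fun s : ℝ => h (s • ec t)) (fderiv ℝ h (ec t) (ec t)) 1 := by
      have hf : HasFDerivAt h (fderiv ℝ h (ec t)) ((1 : ℝ) • ec t) := by
        rw [one_smul]; exact (hd (ec t)).hasFDerivAt
      exact hf.comp_hasDerivAt (1 : ℝ) hl
    have a2 : HasDerivAt (fun s : ℝ => s ^ β • h (ec t)) (β • h (ec t)) 1 := by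
      have := (Real.hasDerivAt_rpow_const (x := (1 : ℝ)) (p := β) (Or.inl one_ne_zero)).smul_const
        (h (ec t))
      simpa using this
    have a3 : (fun s : ℝ => h (s • ec t)) =ᶠ[𝓝 (1 : ℝ)] fun s : ℝ => s ^ β • h (ec t) := by
      filter_upwards [lt_mem_nhds (zero_lt_one : (0 : ℝ) < 1)] with s hs
      exact hh s (ec t) hs
    exact a1.unique (a2.congr_of_eventuallyEq a3)
  refine ⟨fun t => ?_, h2, h3, fun t => ?_⟩
  · exact (hd (ec t)).hasFDerivAt.comp_hasDerivAt t (hasDerivAt_ec t)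
  · rw [h3 (ec t) t, h2 t, norm_smul, mul_pow, Real.norm_eq_abs, sq_abs]

end Pool.Agent.H124.PH
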